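import Pool.Agent.P.MP_8be476_pr.Quenched

/-!
First moment computation over the environment.
-/

set_option autoImplicit false

open MeasureTheory ProbabilityTheory Finset
open scoped ENNReal

namespace Pool.Agent.P.MP_8be476_pr

section meas

variable {α : Type} [MeasurableSpace α] {N : α → List ℕ → ℕ}

lemma meas_fun {β : Type} [MeasurableSpace β] (f : ℕ → β) {g : α → ℕ} (hg : Measurable g) :
    Measurable fun a => f (g a) := (Measurable.of_discrete (f := f)).comp hg

lemma meas_fun₂ {β : Type} [MeasurableSpace β] (f : ℕ → ℕ → β) {g h : α → ℕ} (hg : Measurable g)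
    (hh : Measurable h) : Measurable fun a => f (g a) (h a) :=
  (Measurable.of_discrete (f := fun p : ℕ × ℕ => f p.1 p.2)).comp (hg.prodMk hh)

lemma meas_cases {β : Type} [MeasurableSpace β] {F : ℕ → α → β} (hF : ∀ k, Measurable (F k))
    {g : α → ℕ} (hg : Measurable g) : Measurable fun a => F (g a) a :=
  (measurable_from_prod_countable_right (f := fun p : ℕ × α => F p.1 p.2) hF).comp
    (hg.prodMk measurable_id)

lemma meas_D {y : List ℕ} (h0 : Measurable fun a => N a y)
    (h1 : ∀ i, Measurable fun a => N a (i :: y)) : Measurable fun a => D (N a) y := by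
  unfold D
  refine Measurable.ite (measurableSet_eq_fun h0 measurable_const) ?_ measurable_const
  exact Finset.measurable_sum _ fun i _ =>
    meas_fun (fun k => cond B k * (19 / 20 - gbar k)) (h1 i)

lemma meas_G {L : ℕ} (h : ∀ y : List ℕ, y.length ≤ L → Measurable fun a => N a y) :
    ∀ x : List ℕ, x.length + 1 ≤ L → Measurable fun a => G (N a) x
  | [], _ => measurable_const
  | i :: x, hx => by
    simp only [List.length_cons] at hx
    simp only [G]
    refine (meas_G h x (by omega)).mul (Measurable.div ?_ ?_)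
    · exact meas_fun₂ cond (h _ (by omega)) (h _ (by simp; omega))
    · exact meas_D (h _ (by simp; omega)) fun j => h _ (by simp; omega)

lemma meas_inT {L : ℕ} (h : ∀ y : List ℕ, y.length ≤ L → Measurable fun a => N a y) :
    ∀ x : List ℕ, x.length ≤ L → MeasurableSet {a | inT (N a) x}
  | [], _ => by simp [inT]
  | i :: x, hx => by
    simp only [List.length_cons] at hx
    simp only [inT]
    refine (meas_inT h x (by omega)).inter ?_
    exact measurableSet_lt measurable_const (meas_fun (nch x) (h x (by omega)))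

lemma meas_W {L : ℕ} (h : ∀ y : List ℕ, y.length ≤ L → Measurable fun a => N a y) :
    ∀ x : List ℕ, x.length ≤ L → Measurable fun a => W (N a) x
  | [], _ => measurable_const
  | i :: x, hx => by
    simp only [W]
    refine Measurable.ite (meas_inT h _ hx) ?_ measurable_const
    simp only [List.length_cons] at hx
    exact (meas_fun₂ cond (h _ (by omega)) (h _ (by simp; omega))).mul (meas_G h x hx)

end meas

lemma meas_eval (y : List ℕ) : Measurable fun η : List ℕ → ℕ => η y := measurable_pi_apply y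

lemma measurable_W (x : List ℕ) : Measurable fun η => W η x :=
  meas_W (N := id) (fun y _ => meas_eval y) x le_rfl

lemma measurable_sum_nbrs (c : ℕ → ℕ → ℝ) (x : List ℕ) :
    Measurable fun η : List ℕ → ℕ => ∑ z ∈ nbrs x (η x), c (η x) (η z) :=
  meas_cases (F := fun k η => ∑ z ∈ nbrs x k, c k (η z))
    (fun k => Finset.measurable_sum _ fun z _ => meas_fun (c k) (meas_eval z)) (meas_eval x)

lemma measurable_H (x : List ℕ) : Measurable fun η => H η x := by
  unfold H
  refine Measurable.ite (meas_inT (N := id) (fun y _ => meas_eval y) x le_rfl) ?_ measurable_const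
  exact (measurable_sum_nbrs cond x).mul (meas_G (N := id) (fun y _ => meas_eval y) x le_rfl)

lemma measurable_jump (c : ℕ → ℕ → ℝ) (x y : List ℕ) : Measurable fun η => jump c η x y := by
  unfold jump
  refine Measurable.ite ?_ ?_ measurable_const
  · exact (meas_eval x) (MeasurableSet.of_discrete (s := {k | y ∈ nbrs x k}))
  · exact (meas_fun₂ c (meas_eval x) (meas_eval y)).div (measurable_sum_nbrs c x)

instance : IsProbabilityMeasure law := by
  constructor
  simp [law, ENNReal.inv_two_add_inv_two]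

/-- The law of the environment. -/
noncomputable def Penv : Measure (List ℕ → ℕ) := Measure.infinitePi fun _ : List ℕ => law

instance : IsProbabilityMeasure Penv := by unfold Penv; infer_instance

lemma lintegral_law (φ : ℕ → ℝ≥0∞) : ∫⁻ k, φ k ∂law = 2⁻¹ * φ 2 + 2⁻¹ * φ B := by
  simp [law, lintegral_add_measure, lintegral_smul_measure, B]

lemma lintegral_eval (φ : ℕ → ℝ≥0∞) (y : List ℕ) :
    ∫⁻ η, φ (η y) ∂Penv = 2⁻¹ * φ 2 + 2⁻¹ * φ B := by
  rw [← lintegral_law, ← Measure.infinitePi_map_eval (fun _ : List ℕ => law) y,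
    lintegral_map Measurable.of_discrete (meas_eval y)]
  rfl

lemma ae_good : ∀ᵐ η ∂Penv, Good η := by
  refine ae_all_iff.mpr fun y => ?_
  have h1 : ∀ᵐ k ∂law, k = 2 ∨ k = B := by
    simp only [law, ae_add_measure_iff]
    constructor
    · exact Measure.ae_smul_measure (by simp) _
    · exact Measure.ae_smul_measure (by simp [B]) _
  rw [← Measure.infinitePi_map_eval (fun _ : List ℕ => law) y] at h1
  exact ae_of_ae_map (meas_eval y).aemeasurable h1

lemma iIndep_eval : iIndepFun (fun (y : List ℕ) (η : List ℕ → ℕ) => η y) Penv :=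
  iIndepFun_infinitePi (X := fun _ k => k) (fun _ => measurable_id)

/-- The σ-algebra generated by a set of coordinates. -/
@[reducible] def sig (S : Set (List ℕ)) : MeasurableSpace (List ℕ → ℕ) :=
  ⨆ y ∈ S, MeasurableSpace.comap (fun η : List ℕ → ℕ => η y) inferInstance

lemma sig_le (S : Set (List ℕ)) : sig S ≤ MeasurableSpace.pi :=
  iSup₂_le fun y _ => (meas_eval y).comap_le

lemma meas_sig {S : Set (List ℕ)} {y : List ℕ} (hy : y ∈ S) :
    Measurable[sig S] fun η : List ℕ → ℕ => η y :=
  Measurable.of_comap_le (le_iSup₂ (f := fun y (_ : y ∈ S) =>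
    MeasurableSpace.comap (fun η : List ℕ → ℕ => η y) inferInstance) y hy)

lemma lintegral_mul_indep {S T : Set (List ℕ)} (hST : Disjoint S T) {F F' : (List ℕ → ℕ) → ℝ≥0∞}
    (hF : Measurable[sig S] F) (hF' : Measurable[sig T] F') :
    ∫⁻ η, F η * F' η ∂Penv = (∫⁻ η, F η ∂Penv) * ∫⁻ η, F' η ∂Penv :=
  lintegral_mul_eq_lintegral_mul_lintegral_of_independent_measurableSpace (sig_le S) (sig_le T)
    (indep_iSup_of_disjoint (fun y => (meas_eval y).comap_le) iIndep_eval.iIndep hST) hF hF'

lemma lintegral_two (x : List ℕ) :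
    ∫⁻ η, ENNReal.ofReal (5 / 8 * uu (η (0 :: x)) + 5 / 8 * uu (η (1 :: x))) ∂Penv ≤
      ENNReal.ofReal (107 / 100 * (3 / 2)) := by
  have h0 : ∀ k, 0 ≤ 5 / 8 * uu k := fun k => by have := one_le_uu k; positivity
  simp only [ENNReal.ofReal_add (h0 _) (h0 _)]
  rw [lintegral_add_left (meas_fun (fun k => ENNReal.ofReal (5 / 8 * uu k)) (meas_eval _)),
    lintegral_eval (fun k => ENNReal.ofReal (5 / 8 * uu k)),
    lintegral_eval (fun k => ENNReal.ofReal (5 / 8 * uu k))]
  have h2 : (2⁻¹ : ℝ≥0∞) = ENNReal.ofReal (1 / 2) := by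
    rw [ENNReal.ofReal_div_of_pos (by norm_num)]; simp
  simp only [uu, if_neg two_ne_B, if_true, h2]
  rw [← ENNReal.ofReal_mul (by norm_num), ← ENNReal.ofReal_mul (by norm_num),
    ← ENNReal.ofReal_add (by norm_num) (by norm_num),
    ← ENNReal.ofReal_add (by norm_num) (by norm_num)]
  exact ENNReal.ofReal_le_ofReal (by norm_num)

lemma lintegral_B (x : List ℕ) {q : ℕ} (hq : B = 4 * q) (hq' : 15 ≤ q) :
    ∫⁻ η, ENNReal.ofReal (1063 / 1000 + 5 * 2 ^ q * ∏ i ∈ range B, ss (η (i :: x))) ∂Penv ≤
      ENNReal.ofReal (107 / 100) := by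
  have h0 : ∀ η : List ℕ → ℕ, ENNReal.ofReal
      (1063 / 1000 + 5 * 2 ^ q * ∏ i ∈ range B, ss (η (i :: x))) =
      ENNReal.ofReal (1063 / 1000) +
        ENNReal.ofReal (5 * 2 ^ q) * ∏ i ∈ range B, ENNReal.ofReal (ss (η (i :: x))) := by
    intro η
    have : 0 ≤ ∏ i ∈ range B, ss (η (i :: x)) := prod_nonneg fun i _ => ss_nonneg _
    have h5 : (0 : ℝ) ≤ 5 * 2 ^ q := by positivity
    rw [ENNReal.ofReal_add (by norm_num) (mul_nonneg h5 this), ENNReal.ofReal_mul h5,
      ENNReal.ofReal_prod_of_nonneg fun i _ => ss_nonneg _]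
  simp only [h0]
  have hind : iIndepFun (fun (i : ℕ) (η : List ℕ → ℕ) => ENNReal.ofReal (ss (η (i :: x)))) Penv :=
    (iIndep_eval.precomp (g := fun i : ℕ => i :: x) (fun a b h => by simpa using h)).comp
      (fun _ k => ENNReal.ofReal (ss k)) (fun _ => Measurable.of_discrete)
  rw [lintegral_add_left measurable_const, lintegral_const_mul' _ _ ENNReal.ofReal_ne_top,
    lintegral_prod_eq_prod_lintegral_of_indepFun _ _ hind
      (fun i => meas_fun (fun k => ENNReal.ofReal (ss k)) (meas_eval _))]
  have h1 : ∀ i : ℕ, ∫⁻ η, ENNReal.ofReal (ss (η (i :: x))) ∂Penv = ENNReal.ofReal (3 / 4) := by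
    intro i
    rw [lintegral_eval (fun k => ENNReal.ofReal (ss k))]
    have h2 : (2⁻¹ : ℝ≥0∞) = ENNReal.ofReal (1 / 2) := by
      rw [ENNReal.ofReal_div_of_pos (by norm_num)]; simp
    simp only [ss, if_neg two_ne_B, if_true, h2]
    rw [← ENNReal.ofReal_mul (by norm_num), ← ENNReal.ofReal_mul (by norm_num),
      ← ENNReal.ofReal_add (by norm_num) (by norm_num)]
    norm_num
  simp only [h1, prod_const, card_range, lintegral_const, measure_univ, mul_one]
  rw [← ENNReal.ofReal_pow (by norm_num), ← ENNReal.ofReal_mul (by positivity),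
    ← ENNReal.ofReal_add (by norm_num) (by positivity)]
  refine ENNReal.ofReal_le_ofReal ?_
  have h3 : (2 : ℝ) ^ q * (3 / 4) ^ B ≤ (81 / 128) ^ 15 := by
    rw [hq, pow_mul, ← mul_pow]
    calc (2 * (3 / 4 : ℝ) ^ 4) ^ q = (81 / 128) ^ q := by norm_num
      _ ≤ _ := pow_le_pow_of_le_one (by norm_num) (by norm_num) hq'
  have h4 : (81 / 128 : ℝ) ^ 15 ≤ 14 / 10000 := by norm_num
  rw [mul_assoc]
  linarith

/-- Expected weight of a vertex. -/
noncomputable def wt (x : List ℕ) : ℝ≥0∞ := ∫⁻ η, ENNReal.ofReal (W η x * uu (η x)) ∂Penv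

lemma measurable_Wu (x : List ℕ) : Measurable fun η => ENNReal.ofReal (W η x * uu (η x)) :=
  ((measurable_W x).mul (meas_fun uu (meas_eval x))).ennreal_ofReal

lemma sum_wt_children (j : ℕ) (w : List ℕ) :
    ∑' i, wt (i :: j :: w) ≤ ENNReal.ofReal (107 / 100) * wt (j :: w) := by
  obtain ⟨q, hq, hq'⟩ : ∃ q, B = 4 * q ∧ 15 ≤ q := ⟨250000, rfl, by norm_num⟩
  set x := j :: w with hx
  simp only [wt]
  rw [← lintegral_tsum fun i => (measurable_Wu _).aemeasurable]
  simp only [hx, sum_W_children]
  rw [← hx]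
  let S : Set (List ℕ) := {y | y.length ≤ x.length}
  let T : Set (List ℕ) := {y | x.length < y.length}
  have hST : Disjoint S T := Set.disjoint_left.mpr fun y h1 h2 =>
    absurd (show y.length ≤ x.length from h1) (not_le.mpr h2)
  let F₂ : (List ℕ → ℕ) → ℝ≥0∞ := fun η => if η x = B then 0 else ENNReal.ofReal (W η x)
  let F₃ : (List ℕ → ℕ) → ℝ≥0∞ := fun η => if η x = B then ENNReal.ofReal (W η x) else 0
  have hWS : Measurable[sig S] fun η => ENNReal.ofReal (W η x) :=
    (@meas_W _ (sig S) id x.length (fun y hy => meas_sig hy) x le_rfl).ennreal_ofReal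
  have hxS : MeasurableSet[sig S] {η : List ℕ → ℕ | η x = B} :=
    meas_sig (S := S) (y := x) (le_refl x.length) (MeasurableSet.singleton B)
  have hF₂ : Measurable[sig S] F₂ := Measurable.ite hxS measurable_const hWS
  have hF₃ : Measurable[sig S] F₃ := Measurable.ite hxS hWS measurable_const
  have hT : ∀ i, Measurable[sig T] fun η : List ℕ → ℕ => η (i :: x) :=
    fun i => meas_sig (by simp [T])
  let E₂ : (List ℕ → ℕ) → ℝ≥0∞ :=
    fun η => ENNReal.ofReal (5 / 8 * uu (η (0 :: x)) + 5 / 8 * uu (η (1 :: x)))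
  let E₃ : (List ℕ → ℕ) → ℝ≥0∞ :=
    fun η => ENNReal.ofReal (1063 / 1000 + 5 * 2 ^ q * ∏ i ∈ range B, ss (η (i :: x)))
  have hE₂ : Measurable[sig T] E₂ :=
    @meas_fun₂ _ (sig T) _ _ (fun k m => ENNReal.ofReal (5 / 8 * uu k + 5 / 8 * uu m)) _ _
      (hT 0) (hT 1)
  have hE₃ : Measurable[sig T] E₃ := by
    refine Measurable.ennreal_ofReal (Measurable.const_add (Measurable.const_mul ?_ _) _)
    exact Finset.measurable_prod _ fun i _ => @meas_fun _ (sig T) _ _ ss _ (hT i)
  have h1 : ∫⁻ η, ENNReal.ofReal (W η x * R η x) ∂Penv ≤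
      ∫⁻ η, (F₂ η * E₂ η + F₃ η * E₃ η) ∂Penv := by
    refine lintegral_mono_ae ?_
    filter_upwards [ae_good] with η hη
    rw [ENNReal.ofReal_mul (W_nonneg η x)]
    rcases hη x with h | h
    · have h' : η x ≠ B := by rw [h]; exact two_ne_B
      simp only [F₂, F₃, if_neg h', zero_mul, add_zero, E₂, R_of_two h, le_refl]
    · simp only [F₂, F₃, if_pos h, zero_mul, zero_add, E₃]
      gcongr
      exact R_of_B h hq
  have h2 : ∫⁻ η, ENNReal.ofReal (W η x * uu (η x)) ∂Penv =
      (∫⁻ η, F₂ η ∂Penv) * ENNReal.ofReal (3 / 2) + ∫⁻ η, F₃ η ∂Penv := by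
    rw [← lintegral_mul_const _ (hF₂.mono (sig_le S) le_rfl),
      ← lintegral_add_right _ (hF₃.mono (sig_le S) le_rfl)]
    refine lintegral_congr fun η => ?_
    rw [ENNReal.ofReal_mul (W_nonneg η x)]
    by_cases h : η x = B <;> simp [F₂, F₃, uu, h]
  refine h1.trans ?_
  have hm : Measurable fun η => F₂ η * E₂ η :=
    (hF₂.mono (sig_le S) le_rfl).mul (hE₂.mono (sig_le T) le_rfl)
  rw [lintegral_add_left hm,
    lintegral_mul_indep hST hF₂ hE₂, lintegral_mul_indep hST hF₃ hE₃, h2, mul_add]
  refine add_le_add ?_ ?_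
  · rw [mul_left_comm, ← ENNReal.ofReal_mul (by norm_num)]
    gcongr
    exact lintegral_two x
  · rw [mul_comm]
    gcongr
    exact lintegral_B x hq hq'

lemma sum_wt_root : ∑' i, wt [i] ≤ ENNReal.ofReal 2000000000 := by
  simp only [wt]
  rw [← lintegral_tsum fun i => (measurable_Wu _).aemeasurable]
  calc _ ≤ ∫⁻ _, ENNReal.ofReal 2000000000 ∂Penv := by
        refine lintegral_mono_ae ?_
        filter_upwards [ae_good] with η hη
        exact sum_W_root hη
    _ = _ := by simp

lemma tsum_level_succ (f : List ℕ → ℝ≥0∞) (m : ℕ) :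
    ∑' x : List ℕ, (if x.length = m + 1 then f x else 0) =
      ∑' w : List ℕ, (if w.length = m then ∑' i, f (i :: w) else 0) := by
  have hinj : Function.Injective (fun p : List ℕ × ℕ => p.2 :: p.1) := by
    rintro ⟨a, i⟩ ⟨b, j⟩ h
    simp only [List.cons.injEq] at h
    exact Prod.ext h.2 h.1
  rw [← hinj.tsum_eq, ENNReal.tsum_prod']
  · refine tsum_congr fun w => ?_
    by_cases h : w.length = m <;> simp [h]
  · intro x hx
    cases x with
    | nil => simp at hx
    | cons i w => exact ⟨(w, i), rfl⟩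

lemma level_wt_le (m : ℕ) : ∑' x : List ℕ, (if x.length = m + 1 then wt x else 0) ≤
    ENNReal.ofReal 2000000000 * ENNReal.ofReal (107 / 100) ^ m := by
  induction m with
  | zero =>
    rw [tsum_level_succ, tsum_eq_single [] (fun w hw => by simp [hw])]
    simpa using sum_wt_root
  | succ m ih =>
    rw [tsum_level_succ, pow_succ', mul_left_comm]
    refine le_trans ?_ (mul_le_mul_right ih _)
    rw [← ENNReal.tsum_mul_left]
    refine ENNReal.tsum_le_tsum fun w => ?_
    split_ifs with h
    · cases w with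
      | nil => simp at h
      | cons j w => exact sum_wt_children j w
    · simp

lemma level_H_le (m : ℕ) :
    ∑' x : List ℕ, (if x.length = m then ∫⁻ η, ENNReal.ofReal (H η x) ∂Penv else 0) ≤
      ENNReal.ofReal (14000000000 * (107 / 100) ^ m) := by
  cases m with
  | zero =>
    rw [tsum_eq_single [] (fun w hw => by simp [hw])]
    simp only [List.length_nil, if_true]
    calc _ ≤ ∫⁻ _, ENNReal.ofReal 1000001000 ∂Penv := by
          refine lintegral_mono_ae ?_
          filter_upwards [ae_good] with η hη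
          exact ENNReal.ofReal_le_ofReal (H_nil_le hη)
      _ = ENNReal.ofReal 1000001000 := by simp
      _ ≤ _ := ENNReal.ofReal_le_ofReal (by norm_num)
  | succ m =>
    calc _ ≤ ∑' x : List ℕ, ENNReal.ofReal 7 * (if x.length = m + 1 then wt x else 0) := by
          refine ENNReal.tsum_le_tsum fun x => ?_
          split_ifs with h
          · cases x with
            | nil => simp at h
            | cons j w =>
              rw [wt, ← lintegral_const_mul _ (measurable_Wu _)]
              refine lintegral_mono_ae ?_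
              filter_upwards [ae_good] with η hη
              rw [← ENNReal.ofReal_mul (by norm_num)]
              refine ENNReal.ofReal_le_ofReal ((H_le_W hη j w).trans ?_)
              have h1 := W_nonneg η (j :: w)
              have h2 := one_le_uu (η (j :: w))
              nlinarith
          · simp
      _ ≤ ENNReal.ofReal 7 * (ENNReal.ofReal 2000000000 * ENNReal.ofReal (107 / 100) ^ m) := by
          rw [ENNReal.tsum_mul_left]
          exact mul_le_mul_right (level_wt_le m) _
      _ ≤ _ := by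
          rw [← ENNReal.ofReal_pow (by norm_num), ← ENNReal.ofReal_mul (by norm_num),
            ← ENNReal.ofReal_mul (by norm_num)]
          refine ENNReal.ofReal_le_ofReal ?_
          have : (0 : ℝ) < (107 / 100) ^ m := by positivity
          rw [pow_succ]
          nlinarith

end Pool.Agent.P.MP_8be476_pr
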