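import Mathlib

/-!
Random walk among conductances depending on the indices of the endpoints, on an augmented
Galton-Watson tree.  Vertices are words `List ℕ`, the root is `[]`, the children of `x` are words
`i :: x`.
-/

set_option autoImplicit false

open MeasureTheory
open scoped ENNReal

namespace Pool.Agent.P.MP_8be476_pr

/-- The neighbours of a vertex of index `k`: the root has the `k + 1` children `[0], …, [k]`;
any other vertex `x` has its parent and the `k` children `0 :: x, …, (k - 1) :: x`. -/
def nbrs : List ℕ → ℕ → Finset (List ℕ)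
  | [], k => (Finset.range (k + 1)).image fun i => [i]
  | j :: y, k => insert y ((Finset.range k).image fun i => i :: j :: y)

/-- The probability to jump from `x` to `y` in the tree with indices `ι`, when an edge joining
vertices of indices `k` and `m` has conductance `c k m`. -/
noncomputable def jump (c : ℕ → ℕ → ℝ) (ι : List ℕ → ℕ) (x y : List ℕ) : ℝ :=
  if y ∈ nbrs x (ι x) then c (ι x) (ι y) / ∑ z ∈ nbrs x (ι x), c (ι x) (ι z) else 0

/-- On the probability space `(Ω, P)`, `ι` is an i.i.d. family of indices with law `p` and, given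
`ι`, `X` is the Markov chain started at the root with transition probabilities `jump c ι`. -/
def IsWalk (p : Measure ℕ) (c : ℕ → ℕ → ℝ) {Ω : Type} [MeasurableSpace Ω] (P : Measure Ω)
    (ι : Ω → List ℕ → ℕ) (X : ℕ → Ω → List ℕ) : Prop :=
  IsProbabilityMeasure P ∧ Measurable ι ∧ (∀ n x, MeasurableSet {ω | X n ω = x}) ∧
    ∀ A : Set (List ℕ → ℕ), MeasurableSet A → ∀ (n : ℕ) (x : ℕ → List ℕ), x 0 = [] →
      P {ω | ι ω ∈ A ∧ ∀ i ≤ n, X i ω = x i} =
        ∫⁻ η in A, ∏ i ∈ Finset.range n, ENNReal.ofReal (jump c η (x i) (x (i + 1)))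
          ∂(Measure.infinitePi fun _ : List ℕ => p)

/-- The offspring law: index `2` or `10^6`, each with probability `1/2`. -/
noncomputable def law : Measure ℕ :=
  (2⁻¹ : ℝ≥0∞) • Measure.dirac 2 + (2⁻¹ : ℝ≥0∞) • Measure.dirac 1000000

/-- The conductances: `1000` between two vertices of index `10^6`, and `1` otherwise. -/
def cond (k m : ℕ) : ℝ := if k = 1000000 ∧ m = 1000000 then 1000 else 1

end Pool.Agent.P.MP_8be476_pr
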