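import Pool.Agent.P.MP_8be476_pr.Annealed

/-!
Existence of a probability space carrying the tree and the walk (Ionescu-Tulcea).
-/

set_option autoImplicit false

open MeasureTheory ProbabilityTheory Finset Filter
open scoped ENNReal

namespace Pool.Agent.P.MP_8be476_pr

/-- Words, to be given the discrete σ-algebra. -/
abbrev Word : Type := List ℕ

/-- The discrete σ-algebra on words. -/
@[reducible] def wordMeas : MeasurableSpace (List ℕ) := ⊤

attribute [local instance] wordMeas

lemma wordDiscrete : DiscreteMeasurableSpace (List ℕ) := ⟨fun _ => trivial⟩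

attribute [local instance] wordDiscrete

/-- State space: environment and position. -/
abbrev St : Type := (List ℕ → ℕ) × Word

lemma measurable_jump_St (z : List ℕ) :
    Measurable fun q : St => ENNReal.ofReal (jump cond q.1 q.2 z) :=
  measurable_from_prod_countable_left fun y => (measurable_jump cond y z).ennreal_ofReal

/-- One step of the walk. -/
noncomputable def step : Kernel St St where
  toFun q := Measure.sum fun z : Word => ENNReal.ofReal (jump cond q.1 q.2 z) • Measure.dirac (q.1, z)
  measurable' := by
    refine Measure.measurable_of_measurable_coe _ fun s hs => ?_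
    simp only [Measure.sum_apply _ hs, Measure.smul_apply, smul_eq_mul]
    refine Measurable.tsum fun z => (measurable_jump_St z).mul ?_
    exact (Measure.measurable_coe hs).comp
      (Measure.measurable_dirac.comp (measurable_fst.prodMk measurable_const))

lemma lintegral_step (q : St) {f : St → ℝ≥0∞} (hf : Measurable f) :
    ∫⁻ y, f y ∂(step q) = ∑' z : Word, ENNReal.ofReal (jump cond q.1 q.2 z) * f (q.1, z) := by
  change ∫⁻ y, f y ∂(Measure.sum _) = _
  simp only [lintegral_sum_measure, lintegral_smul_measure, lintegral_dirac' _ hf, smul_eq_mul]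

lemma tsum_jump (η : List ℕ → ℕ) (x : List ℕ) :
    ∑' z : List ℕ, ENNReal.ofReal (jump cond η x z) = 1 := by
  have ht := tot_pos η x
  rw [tsum_eq_sum (s := nbrs x (η x)) (fun z hz => by simp [jump, hz])]
  calc ∑ z ∈ nbrs x (η x), ENNReal.ofReal (jump cond η x z)
      = ∑ z ∈ nbrs x (η x), ENNReal.ofReal (cond (η x) (η z) / tot η x) :=
        sum_congr rfl fun z hz => by rw [jump, if_pos hz]; rfl
    _ = ENNReal.ofReal (∑ z ∈ nbrs x (η x), cond (η x) (η z) / tot η x) :=
        (ENNReal.ofReal_sum_of_nonneg fun z _ => (div_pos (cond_pos _ _) ht).le).symm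
    _ = 1 := by
        rw [← sum_div]
        change ENNReal.ofReal (tot η x / tot η x) = 1
        rw [div_self ht.ne', ENNReal.ofReal_one]

instance : IsMarkovKernel step := by
  refine ⟨fun q => ⟨?_⟩⟩
  have := lintegral_step q (f := fun _ => 1) measurable_const
  simp only [lintegral_const, one_mul, mul_one] at this
  rw [this]
  exact tsum_jump q.1 q.2

/-- The kernels acting on histories. -/
noncomputable def hist (n : ℕ) : Kernel (Π _ : Iic n, St) St :=
  step.comap (fun h => ((h ⟨0, by simp⟩).1, (h ⟨n, by simp⟩).2)) (by fun_prop)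

instance (n : ℕ) : IsMarkovKernel (hist n) := by unfold hist; infer_instance

/-- Initial law. -/
noncomputable def init : Measure St := Penv.map fun η => (η, ([] : List ℕ))

instance : IsProbabilityMeasure init :=
  Measure.isProbabilityMeasure_map (measurable_id.prodMk measurable_const).aemeasurable

/-- The law of the trajectory. -/
noncomputable def traj : Measure (ℕ → St) := Kernel.trajMeasure (X := fun _ => St) init hist

instance : IsProbabilityMeasure traj := by unfold traj; infer_instance

lemma traj_zero : traj.map (fun ω => ω 0) = init := by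
  have h1 : traj.map (Preorder.frestrictLe (π := fun _ : ℕ => St) 0) =
      init.map (MeasurableEquiv.piUnique (fun _ : Iic 0 => St)).symm := by
    rw [traj, Kernel.trajMeasure, Measure.map_comp _ _ (by fun_prop), Kernel.traj_map_frestrictLe,
      Kernel.partialTraj_self, Measure.id_comp]
  have h2 : (fun ω : ℕ → St => ω 0) = (MeasurableEquiv.piUnique (fun _ : Iic 0 => St)) ∘
      (Preorder.frestrictLe (π := fun _ : ℕ => St) 0) := by
    funext ω; rfl
  rw [h2, ← Measure.map_map (by fun_prop) (by fun_prop), h1, MeasurableEquiv.map_map_symm]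

lemma measurableSet_path (n : ℕ) (x : ℕ → List ℕ) :
    MeasurableSet {ω : ℕ → St | ∀ i ≤ n, (ω i).2 = x i} := by
  have : {ω : ℕ → St | ∀ i ≤ n, (ω i).2 = x i} = ⋂ i, ⋂ _ : i ≤ n, {ω | (ω i).2 = x i} := by
    ext ω; simp
  rw [this]
  refine MeasurableSet.iInter fun i => MeasurableSet.iInter fun _ => ?_
  exact (measurable_snd.comp (measurable_pi_apply i)) (MeasurableSet.singleton (x i : Word))

open Classical in
lemma lintegral_traj (x : ℕ → List ℕ) (hx : x 0 = []) (n : ℕ) :
    ∀ f : (List ℕ → ℕ) → ℝ≥0∞, Measurable f →
      ∫⁻ ω, (if ∀ i ≤ n, (ω i).2 = x i then f (ω 0).1 else 0) ∂traj =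
        ∫⁻ η, f η * ∏ i ∈ range n, ENNReal.ofReal (jump cond η (x i) (x (i + 1))) ∂Penv := by
  induction n with
  | zero =>
    intro f hf
    let g : St → ℝ≥0∞ := fun q => if q.2 = x 0 then f q.1 else 0
    have hg : Measurable g :=
      Measurable.ite (measurable_snd (MeasurableSet.singleton (x 0 : Word)))
        (hf.comp measurable_fst) measurable_const
    refine Eq.trans (b := ∫⁻ ω, g (ω 0) ∂traj) (lintegral_congr fun ω => by simp [g]) ?_
    rw [← lintegral_map hg (measurable_pi_apply 0), traj_zero, init,
      lintegral_map hg (by fun_prop)]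
    refine lintegral_congr fun η => ?_
    have : g (η, ([] : List ℕ)) = f η := if_pos hx.symm
    simpa using this
  | succ n ih =>
    intro f hf
    let Φ : (Π _ : Iic n, St) × St → ℝ≥0∞ := fun r =>
      if (∀ i : Iic n, (r.1 i).2 = x i) ∧ r.2.2 = x (n + 1) then f (r.1 ⟨0, by simp⟩).1 else 0
    have hS : MeasurableSet {h : Π _ : Iic n, St | ∀ i : Iic n, (h i).2 = x i} := by
      rw [Set.ofPred_forall]
      exact MeasurableSet.iInter fun i =>
        (measurable_snd.comp (measurable_pi_apply i)) (MeasurableSet.singleton (x i : Word))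
    have hΦ : Measurable Φ := by
      refine Measurable.ite (MeasurableSet.inter (measurable_fst hS) ?_) (by fun_prop)
        measurable_const
      exact (measurable_snd.comp measurable_snd) (MeasurableSet.singleton (x (n + 1) : Word))
    refine Eq.trans (b := ∫⁻ ω, Φ (Preorder.frestrictLe n ω, ω (n + 1)) ∂traj) ?_ ?_
    · refine lintegral_congr fun ω => ?_
      refine if_congr ⟨fun h => ⟨fun i => h i ((mem_Iic.mp i.2).trans (Nat.le_succ n)),
        h _ le_rfl⟩, fun h i hi => ?_⟩ rfl rfl
      rcases Nat.le_succ_iff.mp hi with hi | rfl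
      · exact h.1 ⟨i, mem_Iic.mpr hi⟩
      · exact h.2
    rw [← lintegral_map hΦ (by fun_prop), traj,
      ← Kernel.map_frestrictLe_trajMeasure_compProd_eq_map_trajMeasure,
      Measure.lintegral_compProd hΦ, lintegral_map hΦ.lintegral_kernel_prod_right' (by fun_prop)]
    have h2 := ih (fun η => f η * ENNReal.ofReal (jump cond η (x n) (x (n + 1))))
      (hf.mul (measurable_jump cond _ _).ennreal_ofReal)
    rw [traj] at h2
    refine Eq.trans (lintegral_congr fun ω => ?_) (h2.trans (lintegral_congr fun η => ?_))
    · rw [hist, Kernel.comap_apply, lintegral_step _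
        (f := fun b => Φ (Preorder.frestrictLe n ω, b)) (hΦ.comp measurable_prodMk_left)]
      rw [tsum_eq_single (x (n + 1) : Word)]
      · by_cases h : ∀ i ≤ n, (ω i).2 = x i
        · have h' : ∀ i : Iic n, (Preorder.frestrictLe n ω i).2 = x i :=
            fun i => h i (mem_Iic.mp i.2)
          rw [if_pos h]
          simp only [Φ]
          rw [if_pos ⟨h', trivial⟩, mul_comm]
          congr 3
          exact h n le_rfl
        · have h' : ¬ ∀ i : Iic n, (Preorder.frestrictLe n ω i).2 = x i :=
            fun h' => h fun i hi => h' ⟨i, mem_Iic.mpr hi⟩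
          rw [if_neg h]
          simp only [Φ]
          rw [if_neg (fun hc => h' hc.1), mul_zero]
      · intro z hz
        simp only [Φ]
        rw [if_neg (fun hc => hz hc.2), mul_zero]
    · rw [prod_range_succ]; ring

theorem isWalk_traj : IsWalk law cond traj (fun ω => (ω 0).1) (fun n ω => (ω n).2) := by
  classical
  refine ⟨inferInstance, by fun_prop, fun n x => ?_, fun A hA n x hx => ?_⟩
  · exact (measurable_snd.comp (measurable_pi_apply n)) (MeasurableSet.singleton (x : Word))
  · have h1 := lintegral_traj x hx n (A.indicator 1) (measurable_one.indicator hA)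
    have hm : MeasurableSet {ω : ℕ → St | (ω 0).1 ∈ A ∧ ∀ i ≤ n, (ω i).2 = x i} :=
      MeasurableSet.inter ((measurable_fst.comp (measurable_pi_apply 0)) hA)
        (measurableSet_path n x)
    change traj {ω : ℕ → St | (ω 0).1 ∈ A ∧ ∀ i ≤ n, (ω i).2 = x i} = _
    rw [← lintegral_indicator_one hm, ← lintegral_indicator hA]
    refine Eq.trans (lintegral_congr fun ω => ?_) (h1.trans (lintegral_congr fun η => ?_))
    · by_cases h : ∀ i ≤ n, (ω i).2 = x i
      · rw [if_pos h]
        by_cases h' : (ω 0).1 ∈ A
        · rw [Set.indicator_of_mem h', Set.indicator_of_mem (by exact ⟨h', h⟩)]; rfl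
        · rw [Set.indicator_of_notMem h', Set.indicator_of_notMem (fun hc => h' hc.1)]
      · rw [if_neg h, Set.indicator_of_notMem (fun hc => h hc.2)]
    · by_cases h' : η ∈ A <;> simp [h']

theorem exists_walk : ∃ (Ω : Type) (_ : MeasurableSpace Ω) (P : Measure Ω) (ι : Ω → List ℕ → ℕ)
    (X : ℕ → Ω → List ℕ), IsWalk law cond P ι X :=
  ⟨_, _, _, _, _, isWalk_traj⟩

end Pool.Agent.P.MP_8be476_pr
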