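import Pool.Agent.P.MP_8be476_pr.Defs

/-!
Deterministic (quenched) estimates.
-/

set_option autoImplicit false

open MeasureTheory Finset
open scoped ENNReal

namespace Pool.Agent.P.MP_8be476_pr

/-- The large index. -/
def B : ℕ := 1000000

lemma B_real : (B : ℝ) = 1000000 := by simp [B]

lemma two_ne_B : 2 ≠ B := by simp [B]

lemma cond_def (k m : ℕ) : cond k m = if k = B ∧ m = B then 1000 else 1 := rfl

lemma cond_comm (k m : ℕ) : cond k m = cond m k := by simp [cond_def, and_comm]

lemma one_le_cond (k m : ℕ) : 1 ≤ cond k m := by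
  rw [cond_def]; split_ifs <;> norm_num

lemma cond_pos (k m : ℕ) : 0 < cond k m := one_pos.trans_le (one_le_cond k m)

lemma cond_le (k m : ℕ) : cond k m ≤ 1000 := by
  rw [cond_def]; split_ifs <;> norm_num

lemma cond_of_ne_left {k : ℕ} (h : k ≠ B) (m : ℕ) : cond k m = 1 := by simp [cond_def, h]

lemma cond_of_ne_right (k : ℕ) {m : ℕ} (h : m ≠ B) : cond k m = 1 := by simp [cond_def, h]

lemma cond_BB : cond B B = 1000 := by simp [cond_def]

/-- Number of children. -/
def nch : List ℕ → ℕ → ℕ
  | [], k => k + 1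
  | _ :: _, k => k

lemma cons_mem_nbrs (i : ℕ) (x : List ℕ) (k : ℕ) : i :: x ∈ nbrs x k ↔ i < nch x k := by
  cases x with
  | nil => simp [nbrs, nch]
  | cons j y =>
    have : i :: j :: y ≠ y := fun h => by
      have := congrArg List.length h
      simp at this
      omega
    simp [nbrs, nch, this]

lemma mem_nbrs {x y : List ℕ} {k : ℕ} (h : y ∈ nbrs x k) :
    (∃ j, x = j :: y) ∨ ∃ i, y = i :: x := by
  cases x with
  | nil =>
    simp only [nbrs, mem_image] at h
    obtain ⟨i, -, rfl⟩ := h
    exact Or.inr ⟨i, rfl⟩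
  | cons j w =>
    simp only [nbrs, mem_insert, mem_image] at h
    rcases h with rfl | ⟨i, -, rfl⟩
    · exact Or.inl ⟨j, rfl⟩
    · exact Or.inr ⟨i, rfl⟩

lemma parent_mem_nbrs (j : ℕ) (y : List ℕ) (k : ℕ) : y ∈ nbrs (j :: y) k := by simp [nbrs]

lemma sum_nbrs_nil (k : ℕ) (f : List ℕ → ℝ) :
    ∑ z ∈ nbrs [] k, f z = ∑ i ∈ range (k + 1), f [i] := by
  rw [nbrs, sum_image (fun a _ b _ h => by simpa using h)]

lemma sum_nbrs_cons (j : ℕ) (y : List ℕ) (k : ℕ) (f : List ℕ → ℝ) :
    ∑ z ∈ nbrs (j :: y) k, f z = f y + ∑ i ∈ range k, f (i :: j :: y) := by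
  rw [nbrs, sum_insert, sum_image (fun a _ b _ h => by simpa using h)]
  simp only [mem_image, not_exists, not_and]
  intro i _ h
  have := congrArg List.length h
  simp at this
  omega

/-- Bound for the ratio `G(child)/G(parent)`. -/
noncomputable def gbar (k : ℕ) : ℝ := if k = B then 1 / 200 else 5 / 8

/-- Type weights. -/
noncomputable def uu (k : ℕ) : ℝ := if k = B then 1 else 3 / 2

/-- Denominator in the definition of the superharmonic function. -/
noncomputable def D (η : List ℕ → ℕ) (y : List ℕ) : ℝ :=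
  if η y = B then ∑ i ∈ range B, cond B (η (i :: y)) * (19 / 20 - gbar (η (i :: y))) else 8 / 5

/-- The superharmonic function. -/
noncomputable def G (η : List ℕ → ℕ) : List ℕ → ℝ
  | [] => 1
  | i :: x => G η x * (cond (η x) (η (i :: x)) / D η (i :: x))

/-- Membership in the tree. -/
def inT (η : List ℕ → ℕ) : List ℕ → Prop
  | [] => True
  | i :: x => inT η x ∧ i < nch x (η x)

/-- Total conductance at a vertex. -/
noncomputable def tot (η : List ℕ → ℕ) (x : List ℕ) : ℝ := ∑ z ∈ nbrs x (η x), cond (η x) (η z)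

/-- Environments with indices in the support of the law. -/
def Good (η : List ℕ → ℕ) : Prop := ∀ y, η y = 2 ∨ η y = B

open Classical in
/-- The dominating function for the transition probabilities. -/
noncomputable def H (η : List ℕ → ℕ) (x : List ℕ) : ℝ :=
  if inT η x then tot η x * G η x else 0

open Classical in
/-- The weights whose generation sums are controlled in expectation. -/
noncomputable def W (η : List ℕ → ℕ) : List ℕ → ℝ
  | [] => 0
  | i :: w => if inT η (i :: w) then cond (η w) (η (i :: w)) * G η w else 0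

lemma gbar_le (k : ℕ) : gbar k ≤ 5 / 8 := by unfold gbar; split_ifs <;> norm_num

lemma one_le_uu (k : ℕ) : 1 ≤ uu k := by unfold uu; split_ifs <;> norm_num

lemma uu_le (k : ℕ) : uu k ≤ 3 / 2 := by unfold uu; split_ifs <;> norm_num

lemma D_ge_sum {η : List ℕ → ℕ} {y : List ℕ} (h : η y = B) :
    13 / 40 * ∑ i ∈ range B, cond B (η (i :: y)) ≤ D η y := by
  rw [D, if_pos h, mul_sum]
  refine sum_le_sum fun i _ => ?_
  have h1 := gbar_le (η (i :: y))
  have h2 := cond_pos B (η (i :: y))
  nlinarith

lemma B_le_sum (η : List ℕ → ℕ) (y : List ℕ) :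
    (1000000 : ℝ) ≤ ∑ i ∈ range B, cond B (η (i :: y)) := by
  calc (1000000 : ℝ) = ∑ _i ∈ range B, (1 : ℝ) := by simp [B_real]
    _ ≤ _ := sum_le_sum fun i _ => one_le_cond _ _

lemma D_ge {η : List ℕ → ℕ} {y : List ℕ} (h : η y = B) : 325000 ≤ D η y := by
  have h1 := D_ge_sum h
  have h2 := B_le_sum η y
  linarith

lemma D_of_ne {η : List ℕ → ℕ} {y : List ℕ} (h : η y ≠ B) : D η y = 8 / 5 := by
  rw [D, if_neg h]

lemma D_pos (η : List ℕ → ℕ) (y : List ℕ) : 0 < D η y := by
  by_cases h : η y = B
  · linarith [D_ge h]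
  · rw [D_of_ne h]; norm_num

lemma ratio_le (η : List ℕ → ℕ) (k : ℕ) (y : List ℕ) : cond k (η y) / D η y ≤ gbar (η y) := by
  by_cases h : η y = B
  · rw [div_le_iff₀ (D_pos η y), gbar, if_pos h]
    have h1 := D_ge h
    have h2 := cond_le k (η y)
    linarith
  · rw [D_of_ne h, cond_of_ne_right _ h, gbar, if_neg h]; norm_num

lemma G_pos (η : List ℕ → ℕ) : ∀ x, 0 < G η x
  | [] => one_pos
  | _ :: x => mul_pos (G_pos η x) (div_pos (cond_pos _ _) (D_pos _ _))

lemma nbrs_nonempty (x : List ℕ) (k : ℕ) : (nbrs x k).Nonempty := by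
  cases x with
  | nil => exact ⟨[0], by simp [nbrs]⟩
  | cons j y => exact ⟨y, parent_mem_nbrs j y k⟩

lemma one_le_tot (η : List ℕ → ℕ) (x : List ℕ) : 1 ≤ tot η x := by
  obtain ⟨z, hz⟩ := nbrs_nonempty x (η x)
  exact (one_le_cond _ _).trans
    (single_le_sum (f := fun z => cond (η x) (η z)) (fun z _ => (cond_pos _ _).le) hz)

lemma tot_pos (η : List ℕ → ℕ) (x : List ℕ) : 0 < tot η x := one_pos.trans_le (one_le_tot η x)

lemma superharmonic {η : List ℕ → ℕ} (hη : Good η) (y : List ℕ) :
    ∑ z ∈ nbrs y (η y), cond (η y) (η z) * G η z ≤ 19 / 20 * (tot η y * G η y) := by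
  have hchild : ∀ i, cond (η y) (η (i :: y)) * G η (i :: y) ≤
      cond (η y) (η (i :: y)) * gbar (η (i :: y)) * G η y := by
    intro i
    rw [G, mul_assoc, mul_comm (G η y)]
    have := (cond_pos (η y) (η (i :: y))).le
    have := (G_pos η y).le
    gcongr
    exact ratio_le η _ _
  cases y with
  | nil =>
    rw [tot, sum_nbrs_nil, sum_nbrs_nil, sum_mul, mul_sum]
    refine sum_le_sum fun i _ => (hchild i).trans ?_
    have h1 := gbar_le (η [i])
    have h2 := mul_pos (cond_pos (η []) (η [i])) (G_pos η [])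
    nlinarith
  | cons j w =>
    have hG := G_pos η (j :: w)
    have hpar : cond (η (j :: w)) (η w) * G η w = D η (j :: w) * G η (j :: w) := by
      rw [G, cond_comm]
      have := (D_pos η (j :: w)).ne'
      field_simp
    rw [tot, sum_nbrs_cons, sum_nbrs_cons, hpar]
    have hs : ∑ i ∈ range (η (j :: w)), cond (η (j :: w)) (η (i :: j :: w)) * G η (i :: j :: w) ≤
        (∑ i ∈ range (η (j :: w)), cond (η (j :: w)) (η (i :: j :: w)) * gbar (η (i :: j :: w))) *
          G η (j :: w) := by
      rw [sum_mul]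
      exact sum_le_sum fun i _ => hchild i
    have hmain : D η (j :: w) +
        ∑ i ∈ range (η (j :: w)), cond (η (j :: w)) (η (i :: j :: w)) * gbar (η (i :: j :: w)) ≤
        19 / 20 * (cond (η (j :: w)) (η w) +
          ∑ i ∈ range (η (j :: w)), cond (η (j :: w)) (η (i :: j :: w))) := by
      rcases hη (j :: w) with h | h
      · have h' : η (j :: w) ≠ B := by rw [h]; exact two_ne_B
        rw [D_of_ne h']
        simp only [cond_of_ne_left h']
        rw [h]
        simp only [sum_range_succ, range_zero, sum_empty]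
        have h1 := gbar_le (η (0 :: j :: w))
        have h2 := gbar_le (η (1 :: j :: w))
        linarith
      · rw [D, if_pos h, h, ← sum_add_distrib, mul_add, mul_sum]
        have h1 := cond_pos B (η w)
        have h2 : ∑ i ∈ range B, (cond B (η (i :: j :: w)) * (19 / 20 - gbar (η (i :: j :: w))) +
            cond B (η (i :: j :: w)) * gbar (η (i :: j :: w))) =
            ∑ i ∈ range B, 19 / 20 * cond B (η (i :: j :: w)) :=
          sum_congr rfl fun i _ => by ring
        rw [h2]
        linarith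
    have := mul_le_mul_of_nonneg_right hmain hG.le
    nlinarith

lemma inT_of_mem_nbrs {η : List ℕ → ℕ} {z y : List ℕ} (hz : inT η z) (hy : y ∈ nbrs z (η z)) :
    inT η y ∧ z ∈ nbrs y (η y) := by
  rcases mem_nbrs hy with ⟨j, rfl⟩ | ⟨i, rfl⟩
  · exact ⟨hz.1, (cons_mem_nbrs _ _ _).mpr hz.2⟩
  · exact ⟨⟨hz, (cons_mem_nbrs _ _ _).mp hy⟩, parent_mem_nbrs _ _ _⟩

lemma H_nonneg (η : List ℕ → ℕ) (x : List ℕ) : 0 ≤ H η x := by
  unfold H
  split_ifs
  · exact (mul_pos (tot_pos η x) (G_pos η x)).le
  · exact le_rfl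

lemma adjoint {η : List ℕ → ℕ} (hη : Good η) (y : List ℕ) :
    ∑' z, ENNReal.ofReal (H η z) * ENNReal.ofReal (jump cond η z y) ≤
      ENNReal.ofReal (19 / 20) * ENNReal.ofReal (H η y) := by
  classical
  have hterm : ∀ z, ENNReal.ofReal (H η z) * ENNReal.ofReal (jump cond η z y) ≤
      if inT η y ∧ z ∈ nbrs y (η y) then ENNReal.ofReal (cond (η y) (η z) * G η z) else 0 := by
    intro z
    by_cases hz : inT η z
    · by_cases hy : y ∈ nbrs z (η z)
      · rw [if_pos (inT_of_mem_nbrs hz hy), ← ENNReal.ofReal_mul (H_nonneg η z), H, if_pos hz,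
          jump, if_pos hy]
        refine le_of_eq (congrArg _ ?_)
        have := (tot_pos η z).ne'
        change tot η z * G η z * (cond (η z) (η y) / tot η z) = _
        rw [cond_comm (η y)]
        field_simp
      · simp [jump, hy]
    · simp [H, hz]
  refine (ENNReal.tsum_le_tsum hterm).trans ?_
  by_cases hy : inT η y
  · rw [tsum_eq_sum (s := nbrs y (η y)) (fun z hz => by simp [hz]),
      ← ENNReal.ofReal_mul (by norm_num), H, if_pos hy]
    calc ∑ z ∈ nbrs y (η y), (if inT η y ∧ z ∈ nbrs y (η y) then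
          ENNReal.ofReal (cond (η y) (η z) * G η z) else 0)
        = ∑ z ∈ nbrs y (η y), ENNReal.ofReal (cond (η y) (η z) * G η z) :=
          sum_congr rfl fun z hz => by simp [hy, hz]
      _ = ENNReal.ofReal (∑ z ∈ nbrs y (η y), cond (η y) (η z) * G η z) :=
          (ENNReal.ofReal_sum_of_nonneg fun z _ => (mul_pos (cond_pos _ _) (G_pos _ _)).le).symm
      _ ≤ _ := ENNReal.ofReal_le_ofReal (superharmonic hη y)
  · simp [hy]

lemma W_nonneg (η : List ℕ → ℕ) : ∀ x, 0 ≤ W η x
  | [] => le_rfl
  | i :: w => by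
    rw [W]
    split_ifs
    · exact (mul_pos (cond_pos _ _) (G_pos _ _)).le
    · exact le_rfl

lemma H_le_W {η : List ℕ → ℕ} (hη : Good η) (j : ℕ) (w : List ℕ) :
    H η (j :: w) ≤ 7 * W η (j :: w) := by
  rw [H, W]
  split_ifs with h
  · have h1 : tot η (j :: w) ≤ 7 * D η (j :: w) := by
      rw [tot, sum_nbrs_cons]
      rcases hη (j :: w) with h | h
      · have h' : η (j :: w) ≠ B := by rw [h]; exact two_ne_B
        rw [D_of_ne h']
        simp only [cond_of_ne_left h']
        rw [h]
        norm_num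
      · rw [h]
        have h1 := D_ge_sum h
        have h2 := B_le_sum η (j :: w)
        have h3 := cond_le B (η w)
        linarith
    have hD := D_pos η (j :: w)
    have hc := mul_pos (cond_pos (η w) (η (j :: w))) (G_pos η w)
    rw [G]
    calc tot η (j :: w) * (G η w * (cond (η w) (η (j :: w)) / D η (j :: w)))
        = (tot η (j :: w) / D η (j :: w)) * (cond (η w) (η (j :: w)) * G η w) := by ring
      _ ≤ 7 * (cond (η w) (η (j :: w)) * G η w) := by
        gcongr
        rwa [div_le_iff₀ hD]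
  · simp

lemma H_nil_le {η : List ℕ → ℕ} (hη : Good η) : H η [] ≤ 1000001000 := by
  have h0 : inT η [] := trivial
  rw [H, if_pos h0, G, mul_one, tot, sum_nbrs_nil]
  calc ∑ i ∈ range (η [] + 1), cond (η []) (η [i]) ≤ ∑ _i ∈ range (η [] + 1), (1000 : ℝ) :=
        sum_le_sum fun i _ => cond_le _ _
    _ = ((η [] : ℝ) + 1) * 1000 := by simp
    _ ≤ _ := by
      rcases hη [] with h | h <;> rw [h]
      · norm_num
      · rw [B_real]; norm_num

lemma one_le_H_nil (η : List ℕ → ℕ) : 1 ≤ H η [] := by
  have h0 : inT η [] := trivial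
  rw [H, if_pos h0, G, mul_one]
  exact one_le_tot η []

/-- The growth factor at a vertex. -/
noncomputable def R (η : List ℕ → ℕ) (x : List ℕ) : ℝ :=
  (∑ i ∈ range (η x), cond (η x) (η (i :: x)) * uu (η (i :: x))) / D η x

lemma sum_W_children (η : List ℕ → ℕ) (j : ℕ) (w : List ℕ) :
    ∑' i, ENNReal.ofReal (W η (i :: j :: w) * uu (η (i :: j :: w))) =
      ENNReal.ofReal (W η (j :: w) * R η (j :: w)) := by
  rw [tsum_eq_sum (s := range (η (j :: w))) (fun i hi => by
    have : ¬ inT η (i :: j :: w) := fun h => hi (mem_range.mpr h.2)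
    simp [W, this]), ← ENNReal.ofReal_sum_of_nonneg
      (fun i _ => mul_nonneg (W_nonneg _ _) (zero_le_one.trans (one_le_uu _)))]
  congr 1
  by_cases h : inT η (j :: w)
  · rw [R, W, if_pos h, mul_div_assoc', mul_sum, sum_div]
    refine sum_congr rfl fun i hi => ?_
    have : inT η (i :: j :: w) := ⟨h, mem_range.mp hi⟩
    rw [W, if_pos this, G]
    ring
  · rw [W, if_neg h, zero_mul]
    refine sum_eq_zero fun i _ => ?_
    have : ¬ inT η (i :: j :: w) := fun h' => h h'.1
    simp [W, this]

lemma sum_W_root {η : List ℕ → ℕ} (hη : Good η) :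
    ∑' i, ENNReal.ofReal (W η [i] * uu (η [i])) ≤ ENNReal.ofReal 2000000000 := by
  rw [tsum_eq_sum (s := range (η [] + 1)) (fun i hi => by
    have : ¬ inT η [i] := fun h => hi (mem_range.mpr h.2)
    simp [W, this]), ← ENNReal.ofReal_sum_of_nonneg
      (fun i _ => mul_nonneg (W_nonneg _ _) (zero_le_one.trans (one_le_uu _)))]
  refine ENNReal.ofReal_le_ofReal ?_
  calc ∑ i ∈ range (η [] + 1), W η [i] * uu (η [i]) ≤ ∑ _i ∈ range (η [] + 1), (1500 : ℝ) := by
        refine sum_le_sum fun i _ => ?_
        have h1 : W η [i] ≤ 1000 := by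
          rw [W]
          split_ifs
          · rw [G, mul_one]; exact cond_le _ _
          · norm_num
        have h2 := uu_le (η [i])
        have h3 := W_nonneg η [i]
        have h4 := one_le_uu (η [i])
        nlinarith
    _ = ((η [] : ℝ) + 1) * 1500 := by simp
    _ ≤ _ := by
      rcases hη [] with h | h <;> rw [h]
      · norm_num
      · rw [B_real]; norm_num

lemma R_of_two {η : List ℕ → ℕ} {x : List ℕ} (h : η x = 2) :
    R η x = 5 / 8 * uu (η (0 :: x)) + 5 / 8 * uu (η (1 :: x)) := by
  have h' : η x ≠ B := by rw [h]; exact two_ne_B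
  rw [R, D_of_ne h']
  simp only [cond_of_ne_left h']
  rw [h]
  simp only [sum_range_succ, range_zero, sum_empty]
  ring

/-- Exponential test function for the number of children of large index. -/
noncomputable def ss (k : ℕ) : ℝ := if k = B then 1 / 2 else 1

lemma ss_nonneg (k : ℕ) : 0 ≤ ss k := by unfold ss; split_ifs <;> norm_num

lemma R_of_B {η : List ℕ → ℕ} {x : List ℕ} (h : η x = B) {q : ℕ} (hq : B = 4 * q) :
    R η x ≤ 1063 / 1000 + 5 * 2 ^ q * ∏ i ∈ range B, ss (η (i :: x)) := by
  classical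
  set s := (range B).filter (fun i => η (i :: x) = B) with hs
  set N : ℕ := s.card with hN
  have hNB : N ≤ B := by simpa using card_filter_le (range B) (fun i => η (i :: x) = B)
  have hcompl : (((range B).filter (fun i => ¬ η (i :: x) = B)).card : ℝ) = B - N := by
    have := card_filter_add_card_filter_not (s := range B) (fun i => η (i :: x) = B)
    rw [card_range] at this
    have h2 : (N : ℝ) + (((range B).filter (fun i => ¬ η (i :: x) = B)).card : ℝ) = B := by
      exact_mod_cast this
    linarith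
  have hnum : ∑ i ∈ range B, cond B (η (i :: x)) * uu (η (i :: x)) =
      1000 * N + 3 / 2 * (B - N) := by
    have : ∀ i, cond B (η (i :: x)) * uu (η (i :: x)) =
        if η (i :: x) = B then 1000 else 3 / 2 := by
      intro i
      by_cases hi : η (i :: x) = B
      · simp [hi, cond_BB, uu]
      · simp [hi, cond_of_ne_right _ hi, uu]
    simp only [this]
    rw [sum_ite, sum_const, sum_const, nsmul_eq_mul, nsmul_eq_mul, hcompl]
    ring
  have hden : D η x = 945 * N + 13 / 40 * (B - N) := by
    have : ∀ i, cond B (η (i :: x)) * (19 / 20 - gbar (η (i :: x))) =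
        if η (i :: x) = B then 945 else 13 / 40 := by
      intro i
      by_cases hi : η (i :: x) = B
      · simp only [hi, cond_BB, gbar, if_true]; norm_num
      · simp only [hi, cond_of_ne_right _ hi, gbar, if_false]; norm_num
    rw [D, if_pos h]
    simp only [this]
    rw [sum_ite, sum_const, sum_const, nsmul_eq_mul, nsmul_eq_mul, hcompl]
    ring
  have hprod : ∏ i ∈ range B, ss (η (i :: x)) = (1 / 2) ^ N := by
    simp only [ss]
    rw [prod_ite, prod_const, prod_const_one, mul_one]
  have hD := D_pos η x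
  have hNB' : (N : ℝ) ≤ B := by exact_mod_cast hNB
  have hN0 : (0 : ℝ) ≤ N := Nat.cast_nonneg _
  have hq' : (B : ℝ) = 4 * q := by rw [hq]; push_cast; ring
  rw [R, h, hnum, hprod]
  clear_value N
  generalize (B : ℝ) = b at *
  by_cases hc : q ≤ N
  · have h1 : b ≤ 4 * N := by
      have : (q : ℝ) ≤ N := by exact_mod_cast hc
      linarith
    have h2 : (1000 * N + 3 / 2 * (b - N)) / D η x ≤ 1063 / 1000 := by
      rw [div_le_iff₀ hD, hden]
      linarith
    have h3 : (0 : ℝ) ≤ 5 * 2 ^ q * (1 / 2) ^ N := by positivity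
    linarith
  · have h1 : (1 : ℝ) ≤ 2 ^ q * (1 / 2) ^ N := by
      rw [one_div_pow, mul_one_div, le_div_iff₀ (by positivity), one_mul]
      exact pow_le_pow_right₀ (by norm_num) (by omega)
    have h2 : (1000 * N + 3 / 2 * (b - N)) / D η x ≤ 5 := by
      rw [div_le_iff₀ hD, hden]
      linarith
    rw [mul_assoc]
    linarith

end Pool.Agent.P.MP_8be476_pr
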