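import Pool.Agent.P.MP_8be476_pr.Annealed

/-!
The lower bound for the speed, and existence of the model.
-/

set_option autoImplicit false

open MeasureTheory ProbabilityTheory Finset Filter
open scoped ENNReal

namespace Pool.Agent.P.MP_8be476_pr

section bound

variable {Ω : Type} [MeasurableSpace Ω] {P : Measure Ω} {ι : Ω → List ℕ → ℕ}
  {X : ℕ → Ω → List ℕ}

lemma measurable_prod_jump (c : ℕ → ℕ → ℝ) (m : ℕ) (y : ℕ → List ℕ) :
    Measurable fun η => ∏ i ∈ range m, ENNReal.ofReal (jump c η (y i) (y (i + 1))) :=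
  Finset.measurable_prod _ fun _ _ => (measurable_jump c _ _).ennreal_ofReal

lemma IsWalk.path_le (h : IsWalk law cond P ι X) (n : ℕ) : ∀ (m : ℕ) (y : ℕ → List ℕ),
    P {ω | ∀ i ≤ m, X (n + i) ω = y i} ≤ ENNReal.ofReal (19 / 20) ^ n *
      ∫⁻ η, ENNReal.ofReal (H η (y 0)) *
        ∏ i ∈ range m, ENNReal.ofReal (jump cond η (y i) (y (i + 1))) ∂Penv := by
  obtain ⟨hP, -, hX, hfd⟩ := h
  induction n with
  | zero =>
    intro m y
    by_cases h0 : y 0 = []
    · have h1 := hfd Set.univ MeasurableSet.univ m y h0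
      simp only [Set.mem_univ, true_and, Measure.restrict_univ] at h1
      simp only [zero_add, pow_zero, one_mul, h1, h0]
      refine lintegral_mono fun η => le_mul_of_one_le_left' ?_
      exact ENNReal.one_le_ofReal.mpr (one_le_H_nil η)
    · have h1 := hfd Set.univ MeasurableSet.univ 0 (fun _ => []) rfl
      have h2 : P {ω | X 0 ω = []} = 1 := by
        have h3 : IsProbabilityMeasure (Measure.infinitePi fun _ : List ℕ => law) := inferInstance
        simpa using h1
      have h3 : P {ω | X 0 ω = []}ᶜ = 0 := (prob_compl_eq_zero_iff (hX 0 [])).mpr h2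
      refine le_trans (le_of_eq (measure_mono_null (fun ω hω => ?_) h3)) zero_le
      intro hc
      apply h0
      have := hω 0 (Nat.zero_le m)
      rw [← this]
      exact hc
  | succ n ih =>
    intro m y
    let c : List ℕ → ℕ → List ℕ := fun z i => Nat.casesOn i z y
    have hsub : {ω | ∀ i ≤ m, X (n + 1 + i) ω = y i} ⊆
        ⋃ z, {ω | ∀ i ≤ m + 1, X (n + i) ω = c z i} := by
      intro ω hω
      refine Set.mem_iUnion.mpr ⟨X n ω, fun i hi => ?_⟩
      cases i with
      | zero => rfl
      | succ i =>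
        have := hω i (by omega)
        rw [show n + (i + 1) = n + 1 + i by omega]
        exact this
    refine (measure_mono hsub).trans ((measure_iUnion_le _).trans ?_)
    refine (ENNReal.tsum_le_tsum fun z => ih (m + 1) (c z)).trans ?_
    rw [ENNReal.tsum_mul_left, pow_succ, mul_assoc]
    gcongr
    have hm : ∀ z, Measurable fun η => ENNReal.ofReal (H η (c z 0)) *
        ∏ i ∈ range (m + 1), ENNReal.ofReal (jump cond η (c z i) (c z (i + 1))) :=
      fun z => (measurable_H _).ennreal_ofReal.mul (measurable_prod_jump cond _ _)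
    rw [← lintegral_tsum fun z => (hm z).aemeasurable,
      ← lintegral_const_mul' _ _ ENNReal.ofReal_ne_top]
    refine lintegral_mono_ae ?_
    filter_upwards [ae_good] with η hη
    have h1 : ∀ z, ENNReal.ofReal (H η (c z 0)) *
        ∏ i ∈ range (m + 1), ENNReal.ofReal (jump cond η (c z i) (c z (i + 1))) =
        (ENNReal.ofReal (H η z) * ENNReal.ofReal (jump cond η z (y 0))) *
          ∏ i ∈ range m, ENNReal.ofReal (jump cond η (y i) (y (i + 1))) := by
      intro z
      rw [prod_range_succ']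
      have e0 : c z 0 = z := rfl
      have e1 : ∀ i, c z (i + 1) = y i := fun i => rfl
      simp only [e0, e1]
      ring
    simp only [h1]
    rw [ENNReal.tsum_mul_right, ← mul_assoc]
    gcongr
    exact adjoint hη (y 0)

lemma IsWalk.point_le (h : IsWalk law cond P ι X) (n : ℕ) (x : List ℕ) :
    P {ω | X n ω = x} ≤ ENNReal.ofReal (19 / 20) ^ n * ∫⁻ η, ENNReal.ofReal (H η x) ∂Penv := by
  simpa using h.path_le n 0 (fun _ => x)

lemma IsWalk.level_le (h : IsWalk law cond P ι X) (n m : ℕ) :
    P {ω | (X n ω).length = m} ≤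
      ENNReal.ofReal (14000000000 * ((19 / 20) ^ n * (107 / 100) ^ m)) := by
  have hsub : {ω | (X n ω).length = m} ⊆ ⋃ x : List ℕ, {ω | x.length = m ∧ X n ω = x} :=
    fun ω hω => Set.mem_iUnion.mpr ⟨X n ω, hω, rfl⟩
  refine (measure_mono hsub).trans ((measure_iUnion_le _).trans ?_)
  calc ∑' x : List ℕ, P {ω | x.length = m ∧ X n ω = x}
      ≤ ∑' x : List ℕ, ENNReal.ofReal (19 / 20) ^ n *
          (if x.length = m then ∫⁻ η, ENNReal.ofReal (H η x) ∂Penv else 0) := by
        refine ENNReal.tsum_le_tsum fun x => ?_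
        split_ifs with hx
        · simpa [hx] using h.point_le n x
        · simp [hx]
    _ ≤ ENNReal.ofReal (19 / 20) ^ n * ENNReal.ofReal (14000000000 * (107 / 100) ^ m) := by
        rw [ENNReal.tsum_mul_left]
        exact mul_le_mul_right (level_H_le m) _
    _ = _ := by
        rw [← ENNReal.ofReal_pow (by norm_num), ← ENNReal.ofReal_mul (by positivity)]
        congr 1
        ring

lemma rate_le {n m : ℕ} (h : 3 * m ≤ 2 * n) :
    ((19 / 20 : ℝ) ^ n * (107 / 100) ^ m) ≤ (199 / 200) ^ n := by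
  refine le_of_pow_le_pow_left₀ (n := 3) (by norm_num) (by positivity) ?_
  calc ((19 / 20 : ℝ) ^ n * (107 / 100) ^ m) ^ 3
      = ((19 / 20) ^ 3) ^ n * (107 / 100) ^ (3 * m) := by
        rw [mul_pow, ← pow_mul, ← pow_mul, ← pow_mul, mul_comm n 3, mul_comm m 3]
    _ ≤ ((19 / 20) ^ 3) ^ n * (107 / 100) ^ (2 * n) := by
        gcongr; norm_num
    _ = ((19 / 20) ^ 3 * (107 / 100) ^ 2) ^ n := by rw [mul_pow, pow_mul]
    _ ≤ ((199 / 200) ^ 3) ^ n := by gcongr; norm_num
    _ = _ := by rw [← pow_mul, ← pow_mul, mul_comm]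

theorem IsWalk.speed (h : IsWalk law cond P ι X) :
    ∀ᵐ ω ∂P, ∀ᶠ n : ℕ in atTop, (2 / 3 : ℝ) * n ≤ (X n ω).length := by
  let s : ℕ → Set Ω := fun n => {ω | 3 * (X n ω).length < 2 * n}
  have hs : ∀ n, P (s n) ≤ ENNReal.ofReal (14000000000 * ((n : ℝ) ^ 1 * (199 / 200) ^ n)) := by
    intro n
    have hsub : s n ⊆ ⋃ m ∈ (range n).filter (fun m => 3 * m ≤ 2 * n),
        {ω | (X n ω).length = m} := by
      intro ω hω
      have h1 : 3 * (X n ω).length < 2 * n := hω
      simp only [Set.mem_iUnion]
      exact ⟨(X n ω).length, by simp only [mem_filter, mem_range]; omega, rfl⟩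
    refine (measure_mono hsub).trans ((measure_biUnion_finset_le _ _).trans ?_)
    calc ∑ m ∈ (range n).filter (fun m => 3 * m ≤ 2 * n), P {ω | (X n ω).length = m}
        ≤ ∑ _m ∈ (range n).filter (fun m => 3 * m ≤ 2 * n),
            ENNReal.ofReal (14000000000 * (199 / 200) ^ n) := by
          refine sum_le_sum fun m hm => (h.level_le n m).trans (ENNReal.ofReal_le_ofReal ?_)
          gcongr
          exact rate_le (mem_filter.mp hm).2
      _ ≤ ∑ _m ∈ range n, ENNReal.ofReal (14000000000 * (199 / 200) ^ n) :=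
          sum_le_sum_of_subset (filter_subset _ _)
      _ = _ := by
          rw [← ENNReal.ofReal_sum_of_nonneg (fun _ _ => by positivity)]
          congr 1
          simp
          ring
  have hsum : Summable fun n : ℕ => (14000000000 : ℝ) * ((n : ℝ) ^ 1 * (199 / 200) ^ n) :=
    (summable_pow_mul_geometric_of_norm_lt_one (r := (199 / 200 : ℝ)) 1 (by norm_num)).mul_left _
  have hfin : ∑' n, P (s n) ≠ ⊤ := by
    refine ne_top_of_le_ne_top ?_ (ENNReal.tsum_le_tsum hs)
    rw [← ENNReal.ofReal_tsum_of_nonneg (fun n => by positivity) hsum]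
    exact ENNReal.ofReal_ne_top
  filter_upwards [ae_eventually_notMem hfin] with ω hω
  filter_upwards [hω] with n hn
  have h1 : 2 * n ≤ 3 * (X n ω).length := not_lt.mp hn
  have h2 : (2 : ℝ) * n ≤ 3 * (X n ω).length := by exact_mod_cast h1
  linarith

end bound

lemma vSRW_lt : ∫ k, ((k : ℝ) - 1) / ((k : ℝ) + 1) ∂law < 2 / 3 := by
  rw [law, integral_add_measure, integral_smul_measure, integral_smul_measure, integral_dirac,
    integral_dirac]
  · norm_num
  · exact (integrable_dirac (by simp)).smul_measure (by simp)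
  · exact (integrable_dirac (by simp)).smul_measure (by simp)

end Pool.Agent.P.MP_8be476_pr
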